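import Pool.Agent.H74FS.Space

/-!
The finitely stable graphs with vertex set `ℕ` form a complete analytic set in the space of all
graphs with vertex set `ℕ`.  In particular this set is not Borel.
-/

namespace Pool.Agent.Results.MP_b2ca36_co.CompleteAnalytic

open Pool.Agent.H74FS

/-- The set of finitely stable graphs on `ℕ` is analytic, every analytic subset of the Baire space
is the preimage of it under a continuous map, and it is not a Borel set. -/
theorem result :
    MeasureTheory.AnalyticSet {G : SimpleGraph ℕ | FinitelyStable G} ∧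
    (∀ A : Set (ℕ → ℕ), MeasureTheory.AnalyticSet A →
      ∃ φ : (ℕ → ℕ) → SimpleGraph ℕ, Continuous φ ∧ ∀ x, x ∈ A ↔ FinitelyStable (φ x)) ∧
    ¬ @MeasurableSet (SimpleGraph ℕ) (borel (SimpleGraph ℕ))
      {G : SimpleGraph ℕ | FinitelyStable G} :=
  ⟨fs_analytic, hard, not_borel⟩

end Pool.Agent.Results.MP_b2ca36_co.CompleteAnalytic
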