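import Pool.Agent.H74FS.Complete

/-!
Isomorphism of finitely stable graphs is as complicated as isomorphism of arbitrary graphs
on `ℕ`.
-/

namespace Pool.Agent.Results.MP_b2ca36_co.IsoComplete

open Pool.Agent.H74FS

/-- There is a continuous map from the space of graphs on `ℕ` to itself all of whose values are
finitely stable and which reduces isomorphism of arbitrary graphs to isomorphism of its values. -/
theorem result :
    ∃ Ψ : SimpleGraph ℕ → SimpleGraph ℕ, Continuous Ψ ∧ (∀ G, FinitelyStable (Ψ G)) ∧
      ∀ G H : SimpleGraph ℕ, Nonempty (Ψ G ≃g Ψ H) ↔ Nonempty (G ≃g H) :=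
  ⟨stab, stab_continuous, stab_stable, stab_iso⟩

end Pool.Agent.Results.MP_b2ca36_co.IsoComplete
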