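import Pool.Agent.H74FS.Rado

/-!
Among the graphs on `ℕ` with oligomorphic automorphism group, the Rado graph is the only finitely
stable one.
-/

namespace Pool.Agent.Results.MP_b2ca36_co.Oligomorphic

open Pool.Agent.H74FS

/-- A graph on `ℕ` whose automorphism group is oligomorphic is finitely stable if and only if it
has the extension property which defines the Rado graph. -/
theorem result (G : SimpleGraph ℕ) (hG : Oligomorphic G) : FinitelyStable G ↔ RadoProp G :=
  ⟨fun h => rado_of_oligomorphic h hG, stable_of_rado⟩

end Pool.Agent.Results.MP_b2ca36_co.Oligomorphic
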