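import Pool.Agent.H74FS.Rich

/-!
Structure of finitely stable graphs: either all degrees and codegrees are infinite, or the graph or
its complement contains every finite connected graph infinitely often as a component.
-/

namespace Pool.Agent.Results.MP_b2ca36_co.Trichotomy

open Pool.Agent.H74FS

/-- Let `G` be a finitely stable graph with at least two vertices.  Then every vertex has
infinitely many neighbours and infinitely many non-neighbours, or every finite connected graph is
isomorphic to infinitely many components of `G`, or every finite connected graph is isomorphic to
infinitely many components of the complement of `G`. -/
theorem result {V : Type*} [Nontrivial V] (G : SimpleGraph V) (hG : FinitelyStable G) :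
    (∀ v, (G.neighborSet v).Infinite ∧ (Gᶜ.neighborSet v).Infinite) ∨ Rich G ∨ Rich Gᶜ :=
  trichotomy hG

end Pool.Agent.Results.MP_b2ca36_co.Trichotomy
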